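import Pool.Agent.U624.KT.Stm

/-!
# Project KT, package SMALL: pure elements of `OS` of norm `1`

`w = (A i + B j + C k) / √2` with `A, B, C` in `R` and `A² + B² + C² = 2`. The form `lam (x²)` on `R` is a sum of four squares of
integral coordinates, so `A` is one of `0, ±1, ±√2`. The quaternion `h = i + w` (or `h = j` if `w = -i`) does the job.
-/

set_option autoImplicit false

open scoped Quaternion
open Quaternion (normSq)

namespace Pool.Agent.U798.KT

open Pool.Agent.U624.KT

theorem zero_of {x : ℤ} (h : x * x ≤ 0) : x = 0 := by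
  have h2 : x * x = 0 := le_antisymm h (mul_self_nonneg x)
  exact mul_self_eq_zero.1 h2

theorem zero_a {a b c d : ℤ} (h : a * a + b * b + 2 * (c * c + d * d) ≤ 0) : a = 0 ∧ b = 0 ∧ c = 0 ∧ d = 0 := by
  have ha := mul_self_nonneg a
  have hb := mul_self_nonneg b
  have hc := mul_self_nonneg c
  have hd := mul_self_nonneg d
  exact ⟨zero_of (by linarith), zero_of (by linarith), zero_of (by linarith), zero_of (by linarith)⟩

theorem zero_b {a b c d : ℤ} (h : (a + b + c + d) * (a + b + c + d) + (b + d) * (b + d) + (c + d) * (c + d) + d * d ≤ 0) :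
    a = 0 ∧ b = 0 ∧ c = 0 ∧ d = 0 := by
  have h1 := mul_self_nonneg (a + b + c + d)
  have h2 := mul_self_nonneg (b + d)
  have h3 := mul_self_nonneg (c + d)
  have h4 := mul_self_nonneg d
  have e1 : a + b + c + d = 0 := zero_of (by linarith)
  have e2 : b + d = 0 := zero_of (by linarith)
  have e3 : c + d = 0 := zero_of (by linarith)
  have e4 : d = 0 := zero_of (by linarith)
  refine ⟨?_, ?_, ?_, ?_⟩ <;> omega

theorem sq_cases {x : ℤ} (h : x * x ≤ 1) : x = 0 ∨ x = 1 ∨ x = -1 := by
  have h1 : x ≤ 1 := by nlinarith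
  have h2 : -1 ≤ x := by nlinarith
  omega

/-- integral elements with a sum of squares equal to two -/
theorem int_key (a b c d a' b' c' d' a'' b'' c'' d'' : ℤ)
    (h0 : (a * a + b * b + 2 * (c * c + d * d)) + (a' * a' + b' * b' + 2 * (c' * c' + d' * d')) +
      (a'' * a'' + b'' * b'' + 2 * (c'' * c'' + d'' * d'')) = 2)
    (h1 : ((a + b + c + d) * (a + b + c + d) + (b + d) * (b + d) + (c + d) * (c + d) + d * d) +
      ((a' + b' + c' + d') * (a' + b' + c' + d') + (b' + d') * (b' + d') + (c' + d') * (c' + d') + d' * d') +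
      ((a'' + b'' + c'' + d'') * (a'' + b'' + c'' + d'') + (b'' + d'') * (b'' + d'') + (c'' + d'') * (c'' + d'') +
        d'' * d'') = 2) :
    (a = 0 ∧ b = 0 ∧ c = 0 ∧ d = 0) ∨ (a = 1 ∧ b = 0 ∧ c = 0 ∧ d = 0) ∨ (a = -1 ∧ b = 0 ∧ c = 0 ∧ d = 0) ∨
      ((a' = 0 ∧ b' = 0 ∧ c' = 0 ∧ d' = 0) ∧ (a'' = 0 ∧ b'' = 0 ∧ c'' = 0 ∧ d'' = 0)) := by
  have p1 := mul_self_nonneg a
  have p2 := mul_self_nonneg b
  have p3 := mul_self_nonneg c
  have p4 := mul_self_nonneg d
  have p1' := mul_self_nonneg a'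
  have p2' := mul_self_nonneg b'
  have p3' := mul_self_nonneg c'
  have p4' := mul_self_nonneg d'
  have p1'' := mul_self_nonneg a''
  have p2'' := mul_self_nonneg b''
  have p3'' := mul_self_nonneg c''
  have p4'' := mul_self_nonneg d''
  set X := a * a + b * b + 2 * (c * c + d * d) with hX
  set X' := a' * a' + b' * b' + 2 * (c' * c' + d' * d') with hX'
  set X'' := a'' * a'' + b'' * b'' + 2 * (c'' * c'' + d'' * d'') with hX''
  have q : 0 ≤ X := by linarith
  have q' : 0 ≤ X' := by linarith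
  have q'' : 0 ≤ X'' := by linarith
  have hc : X = 0 ∨ X = 1 ∨ X = 2 := by omega
  rcases hc with hc | hc | hc
  · exact Or.inl (zero_a (by linarith))
  · have c0 : c = 0 := by
      rcases sq_cases (x := c) (by linarith) with h | h | h
      · exact h
      · rw [h] at hX; linarith
      · rw [h] at hX; linarith
    have d0 : d = 0 := by
      rcases sq_cases (x := d) (by linarith) with h | h | h
      · exact h
      · rw [h] at hX; linarith
      · rw [h] at hX; linarith
    have ha := sq_cases (x := a) (by linarith)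
    have hb := sq_cases (x := b) (by linarith)
    subst c0 d0
    by_cases b0 : b = 0
    · subst b0
      rcases ha with h | h | h
      · subst h
        rw [hc] at hX
        norm_num at hX
      · exact Or.inr (Or.inl ⟨h, rfl, rfl, rfl⟩)
      · exact Or.inr (Or.inr (Or.inl ⟨h, rfl, rfl, rfl⟩))
    · exfalso
      have hbb : b * b = 1 := by
        rcases hb with h | h | h
        · exact absurd h b0
        · rw [h]; norm_num
        · rw [h]; norm_num
      have haa : a * a = 0 := by linarith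
      have a0 : a = 0 := mul_self_eq_zero.1 haa
      subst a0
      have h2 : (a' + b' + c' + d') * (a' + b' + c' + d') + (b' + d') * (b' + d') + (c' + d') * (c' + d') + d' * d' +
        ((a'' + b'' + c'' + d'') * (a'' + b'' + c'' + d'') + (b'' + d'') * (b'' + d'') + (c'' + d'') * (c'' + d'') +
        d'' * d'') = 0 := by
        have : (0 + b + 0 + 0) * (0 + b + 0 + 0) + (b + 0) * (b + 0) + (0 + 0) * (0 + 0) + 0 * 0 = 2 * (b * b) := by ring
        linarith
      have r1 := mul_self_nonneg (a' + b' + c' + d')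
      have r2 := mul_self_nonneg (b' + d')
      have r3 := mul_self_nonneg (c' + d')
      have r1' := mul_self_nonneg (a'' + b'' + c'' + d'')
      have r2' := mul_self_nonneg (b'' + d'')
      have r3' := mul_self_nonneg (c'' + d'')
      obtain ⟨z1, z2, z3, z4⟩ := zero_b (a := a') (b := b') (c := c') (d := d') (by linarith)
      obtain ⟨z1', z2', z3', z4'⟩ := zero_b (a := a'') (b := b'') (c := c'') (d := d'') (by linarith)
      rw [z1, z2, z3, z4] at hX'
      rw [z1', z2', z3', z4'] at hX''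
      norm_num at hX' hX''
      omega
  · refine Or.inr (Or.inr (Or.inr ⟨zero_a ?_, zero_a ?_⟩))
    · show X' ≤ 0
      linarith
    · show X'' ≤ 0
      linarith

/-- one of three elements of `R` with a sum of squares equal to two -/
theorem key {A B C : K} (hA : A ∈ R) (hB : B ∈ R) (hC : C ∈ R) (h : A * A + B * B + C * C = 2) :
    A = 0 ∨ A = 1 ∨ A = -1 ∨ A = s ∨ A = -s := by
  obtain ⟨a, b, c, d, rfl⟩ := hA
  obtain ⟨a', b', c', d', rfl⟩ := hB
  obtain ⟨a'', b'', c'', d'', rfl⟩ := hC
  have h' := h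
  rw [mk_mul, mk_mul, mk_mul, mk_add, mk_add, two_eq] at h'
  obtain ⟨e0, e1, e2, e3⟩ := mk_inj h'
  have k := int_key a b c d a' b' c' d' a'' b'' c'' d'' (by exact_mod_cast e0) (by
    have : ((a : ℚ) + b + c + d) * (a + b + c + d) + (b + d) * (b + d) + (c + d) * (c + d) + d * d +
      (((a' : ℚ) + b' + c' + d') * (a' + b' + c' + d') + (b' + d') * (b' + d') + (c' + d') * (c' + d') + d' * d') +
      (((a'' : ℚ) + b'' + c'' + d'') * (a'' + b'' + c'' + d'') + (b'' + d'') * (b'' + d'') + (c'' + d'') * (c'' + d'') +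
        d'' * d'') = 2 := by linarith
    exact_mod_cast this)
  rcases k with ⟨h1, h2, h3, h4⟩ | ⟨h1, h2, h3, h4⟩ | ⟨h1, h2, h3, h4⟩ | ⟨⟨h1, h2, h3, h4⟩, h1', h2', h3', h4'⟩
  · left
    rw [h1, h2, h3, h4]; push_cast; exact mk_zero
  · right; left
    rw [h1, h2, h3, h4]; push_cast; exact mk_one
  · right; right; left
    rw [h1, h2, h3, h4, ← mk_one, mk_neg]; push_cast
    exact mk_ext rfl (by norm_num) (by norm_num) (by norm_num)
  · right; right; right
    rw [h1, h2, h3, h4, h1', h2', h3', h4'] at h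
    push_cast at h
    rw [mk_zero, mul_zero, add_zero, add_zero, ← s_sq, sq] at h
    exact mul_self_eq_mul_self_iff.1 h

theorem R2_of_two_mul {x : K} (h : 2 * x ∈ R) : x ∈ R2 := ⟨1, by rwa [pow_one]⟩

theorem R_le {x : K} (h : x ∈ R) : x ∈ R2 := ⟨0, by rwa [pow_zero, one_mul]⟩

theorem two_mem : (2 : K) ∈ R := by
  have := R.add_mem R.one_mem R.one_mem
  rwa [one_add_one_eq_two] at this

theorem half_mem : (1 / 2 : K) ∈ R2 := R2_of_two_mul (by
  rw [mul_one_div_cancel (two_ne_zero)]
  exact R.one_mem)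

/-- the quaternion `j` -/
noncomputable def qj : ℍ[K] := ⟨0, 0, 1, 0⟩

theorem t_SMALL' : S_SMALL := by
  rintro w ⟨-, g1, g2, g3, g4, g5, g6, -⟩ hre hn
  have hs : s * s = 2 := by rw [← sq]; exact s_sq
  rw [hre, zero_sub, mul_neg] at g4 g5 g6
  have A := R.neg_mem g4
  have B := R.neg_mem g5
  have C := R.neg_mem g6
  rw [neg_neg] at A B C
  rw [Quaternion.normSq_def'] at hn
  rw [hre] at hn
  have hk := key A B C (by linear_combination 2 * hn + (w.imI ^ 2 + w.imJ ^ 2 + w.imK ^ 2) * hs)
  have q0 : qi.re = 0 := rfl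
  have q1 : qi.imI = 1 := rfl
  have q2 : qi.imJ = 0 := rfl
  have q3 : qi.imK = 0 := rfl
  -- the general choice
  have hw : ∀ t : ℍ[K], t.re = 0 → t.imI ^ 2 + t.imJ ^ 2 + t.imK ^ 2 = 1 → (qi + t) * qi = t * (qi + t) := by
    intro t ht h1
    apply Quaternion.ext
    · simp only [Quaternion.re_mul, Quaternion.re_add, Quaternion.imI_add, Quaternion.imJ_add, Quaternion.imK_add,
        q0, q1, q2, q3, ht]
      linear_combination h1
    · simp only [Quaternion.imI_mul, Quaternion.re_add, Quaternion.imI_add, Quaternion.imJ_add, Quaternion.imK_add,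
        q0, q1, q2, q3, ht]
      ring
    · simp only [Quaternion.imJ_mul, Quaternion.re_add, Quaternion.imI_add, Quaternion.imJ_add, Quaternion.imK_add,
        q0, q1, q2, q3, ht]
      ring
    · simp only [Quaternion.imK_mul, Quaternion.re_add, Quaternion.imI_add, Quaternion.imJ_add, Quaternion.imK_add,
        q0, q1, q2, q3, ht]
      ring
  have hsum : w.imI ^ 2 + w.imJ ^ 2 + w.imK ^ 2 = 1 := by linear_combination hn
  have hRQ : RQ (qi + w) := by
    refine ⟨?_, ?_, ?_, ?_⟩
    · show qi.re + w.re ∈ R2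
      rw [hre]
      show (0 : K) + 0 ∈ R2
      rw [add_zero]; exact R2.zero_mem
    · show (1 : K) + w.imI ∈ R2
      exact R2.add_mem R2.one_mem (R2_of_two_mul g1)
    · show (0 : K) + w.imJ ∈ R2
      exact R2.add_mem R2.zero_mem (R2_of_two_mul g2)
    · show (0 : K) + w.imK ∈ R2
      exact R2.add_mem R2.zero_mem (R2_of_two_mul g3)
  have hns : normSq (qi + w) = 2 + 2 * w.imI := by
    rw [Quaternion.normSq_def']
    show ((0 : K) + w.re) ^ 2 + (1 + w.imI) ^ 2 + (0 + w.imJ) ^ 2 + (0 + w.imK) ^ 2 = _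
    rw [hre]
    linear_combination hsum
  have hI : 2 * w.imI = s * (s * w.imI) := by rw [← mul_assoc, hs]
  have sR : s ∈ R2 := R_le s_mem
  have h12 : (1 / 2 : K) * 2 = 1 := by norm_num
  rcases hk with hA | hA | hA | hA | hA
  · refine ⟨qi + w, hRQ, hw w hre hsum, 1, R2.one_mem, 1, R2.one_mem, 1 / 2, half_mem, ?_, ?_⟩
    · rw [hns, hI, hA]; ring
    · rw [hns, hI, hA]; norm_num
  · refine ⟨qi + w, hRQ, hw w hre hsum, 1 + 1 / 2 * s, R2.add_mem R2.one_mem (R2.mul_mem half_mem sR), 1 / 2 * s,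
      R2.mul_mem half_mem sR, (1 / 2) * (2 - s), R2.mul_mem half_mem (R2.sub_mem (R_le two_mem) sR), ?_, ?_⟩
    · rw [hns, hI, hA]; linear_combination (1 / 2 : K) * hs
    · rw [hns, hI, hA]; linear_combination (-1 / 2 : K) * hs
  · refine ⟨qi + w, hRQ, hw w hre hsum, 1 - 1 / 2 * s, R2.sub_mem R2.one_mem (R2.mul_mem half_mem sR), 1 / 2 * s,
      R2.mul_mem half_mem sR, (1 / 2) * (2 + s), R2.mul_mem half_mem (R2.add_mem (R_le two_mem) sR), ?_, ?_⟩
    · rw [hns, hI, hA]; linear_combination (1 / 2 : K) * hs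
    · rw [hns, hI, hA]; linear_combination (-1 / 2 : K) * hs
  · refine ⟨qi + w, hRQ, hw w hre hsum, 2, R_le two_mem, 0, R2.zero_mem, 1 / 2 * (1 / 2),
      R2.mul_mem half_mem half_mem, ?_, ?_⟩
    · rw [hns, hI, hA, hs]; norm_num
    · rw [hns, hI, hA, hs]; norm_num
  · -- `w = -i`
    have s0 : s ≠ 0 := by
      intro h
      rw [h, mul_zero] at hs
      exact two_ne_zero hs.symm
    have e1 : w.imI = -1 := by
      have : s * (w.imI + 1) = 0 := by rw [mul_add, hA]; ring
      rcases mul_eq_zero.1 this with h | h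
      · exact absurd h s0
      · linear_combination h
    -- the other coordinates are zero
    have e2 : w.imJ = 0 ∧ w.imK = 0 := by
      have h2 : (s * w.imJ) * (s * w.imJ) + (s * w.imK) * (s * w.imK) + 0 * 0 = 0 := by
        rw [e1] at hsum
        linear_combination 2 * hsum + (w.imJ ^ 2 + w.imK ^ 2) * hs
      obtain ⟨a, b, c, d, hB⟩ := B
      obtain ⟨a', b', c', d', hC⟩ := C
      have h3 := h2
      rw [hB, hC, mk_mul, mk_mul, mk_add, mul_zero, add_zero, ← mk_zero] at h3
      obtain ⟨k0, -, -, -⟩ := mk_inj h3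
      have k0' : (a * a + b * b + 2 * (c * c + d * d)) + (a' * a' + b' * b' + 2 * (c' * c' + d' * d')) = 0 := by
        exact_mod_cast k0
      have p1 := mul_self_nonneg a
      have p2 := mul_self_nonneg b
      have p3 := mul_self_nonneg c
      have p4 := mul_self_nonneg d
      have p1' := mul_self_nonneg a'
      have p2' := mul_self_nonneg b'
      have p3' := mul_self_nonneg c'
      have p4' := mul_self_nonneg d'
      obtain ⟨z1, z2, z3, z4⟩ := zero_a (a := a) (b := b) (c := c) (d := d) (by linarith)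
      obtain ⟨z1', z2', z3', z4'⟩ := zero_a (a := a') (b := b') (c := c') (d := d') (by linarith)
      rw [z1, z2, z3, z4] at hB
      rw [z1', z2', z3', z4'] at hC
      push_cast at hB hC
      rw [mk_zero] at hB hC
      exact ⟨(mul_eq_zero.1 hB).resolve_left s0, (mul_eq_zero.1 hC).resolve_left s0⟩
    obtain ⟨e2, e3⟩ := e2
    refine ⟨qj, ⟨R2.zero_mem, R2.zero_mem, R2.one_mem, R2.zero_mem⟩, ?_, 1, R2.one_mem, 0, R2.zero_mem, 1,
      R2.one_mem, ?_, ?_⟩
    · have r0 : qj.re = 0 := rfl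
      have r1 : qj.imI = 0 := rfl
      have r2 : qj.imJ = 1 := rfl
      have r3 : qj.imK = 0 := rfl
      apply Quaternion.ext
      · simp only [Quaternion.re_mul, r0, r1, r2, r3, q0, q1, q2, q3, hre, e1, e2, e3]
        ring
      · simp only [Quaternion.imI_mul, r0, r1, r2, r3, q0, q1, q2, q3, hre, e1, e2, e3]
        ring
      · simp only [Quaternion.imJ_mul, r0, r1, r2, r3, q0, q1, q2, q3, hre, e1, e2, e3]
        ring
      · simp only [Quaternion.imK_mul, r0, r1, r2, r3, q0, q1, q2, q3, hre, e1, e2, e3]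
        ring
    · rw [Quaternion.normSq_def']
      show (1 : K) ^ 2 + 0 ^ 2 = 0 ^ 2 + 0 ^ 2 + 1 ^ 2 + 0 ^ 2
      ring
    · rw [Quaternion.normSq_def']
      show ((0 : K) ^ 2 + 0 ^ 2 + 1 ^ 2 + 0 ^ 2) * 1 = 1
      ring

theorem t_SMALL (_ : S_LAM) (_ : S_SIX) : S_SMALL := t_SMALL'

end Pool.Agent.U798.KT
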